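import Mathlib

/-!
# Two multi-affine polynomials of degree at most four: unboundedly many components

Over every real closed field `R` and for every `m` there are two multi-affine polynomials of degree
at most `4` in `2 * m + 1` variables whose common zero set has at least `2 ^ m` semi-algebraically
connected components.  So for `d = 4` (and every larger `d`) there is no bound independent of the
number of variables.
-/

open MvPolynomial

namespace Pool.Agent.Results.MP_12b847_ag.TwoMultiAffine

/-- The semi-algebraic subsets of `R ^ n`: the smallest family of subsets that contains every set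
`{x | 0 < P(x)}`, `P` a polynomial over `R`, and is stable under complements and intersections. -/
inductive IsSemialgebraic {R : Type*} [Field R] [LinearOrder R] {n : ℕ} :
    Set (Fin n → R) → Prop
  | basic (P : MvPolynomial (Fin n) R) : IsSemialgebraic {x | 0 < eval x P}
  | compl (A : Set (Fin n → R)) : IsSemialgebraic A → IsSemialgebraic Aᶜ
  | inter (A B : Set (Fin n → R)) : IsSemialgebraic A → IsSemialgebraic B →
      IsSemialgebraic (A ∩ B)

/-- The semi-algebraically connected component of the point `x` in the semi-algebraic set `V`: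
the points of `V` that no semi-algebraic set which is open and closed in `V` separates
from `x`. -/
def component {R : Type*} [Field R] [LinearOrder R] [TopologicalSpace R] {n : ℕ}
    (V : Set (Fin n → R)) (x : Fin n → R) : Set (Fin n → R) :=
  {y | y ∈ V ∧ ∀ A : Set (Fin n → R), IsSemialgebraic A →
    IsClopen ((Subtype.val : V → (Fin n → R)) ⁻¹' A) → (x ∈ A ↔ y ∈ A)}

/-- The number of semi-algebraically connected components of `V`. -/
noncomputable def b0 {R : Type*} [Field R] [LinearOrder R] [TopologicalSpace R] {n : ℕ}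
    (V : Set (Fin n → R)) : ℕ∞ :=
  Set.encard {C : Set (Fin n → R) | ∃ x ∈ V, C = component V x}

/-- The common zero set of `P` and `Q` in `R ^ n`. -/
def zeroSet {R : Type*} [Field R] {n : ℕ} (P Q : MvPolynomial (Fin n) R) : Set (Fin n → R) :=
  {x | eval x P = 0 ∧ eval x Q = 0}

section Construction

variable (R : Type*) [Field R] (m : ℕ)

/-- index of `x_k`. -/
def ia (k : Fin m) : Fin (2 * m + 1) := ⟨2 * k.1, by have := k.2; omega⟩
/-- index of `y_k`. -/
def ib (k : Fin m) : Fin (2 * m + 1) := ⟨2 * k.1 + 1, by have := k.2; omega⟩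
/-- index of `z`. -/
def ic : Fin (2 * m + 1) := ⟨2 * m, by omega⟩

lemma ia_ne_ib (k l : Fin m) : ia m k ≠ ib m l := by
  intro h; have := congrArg Fin.val h; simp [ia, ib] at this; omega
lemma ia_ne_ic (k : Fin m) : ia m k ≠ ic m := by
  intro h; have := congrArg Fin.val h; have := k.2; simp [ia, ic] at *; omega
lemma ib_ne_ic (k : Fin m) : ib m k ≠ ic m := by
  intro h; have := congrArg Fin.val h; have := k.2; simp [ib, ic] at *; omega
lemma ia_ne_ia {k l : Fin m} (h : k ≠ l) : ia m k ≠ ia m l := by
  intro h'; apply h; have := congrArg Fin.val h'; simp [ia] at this; exact Fin.ext this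
lemma ib_ne_ib {k l : Fin m} (h : k ≠ l) : ib m k ≠ ib m l := by
  intro h'; apply h; have := congrArg Fin.val h'; simp [ib] at this; exact Fin.ext this

/-- The product `x_k y_k`. -/
noncomputable def s (k : Fin m) : MvPolynomial (Fin (2 * m + 1)) R := X (ia m k) * X (ib m k)

/-- The first polynomial `z - ∑ x_k y_k`. -/
noncomputable def PP : MvPolynomial (Fin (2 * m + 1)) R := X (ic m) - ∑ k, s R m k

/-- The second polynomial. -/
noncomputable def QQ : MvPolynomial (Fin (2 * m + 1)) R :=
  (∑ k, X (ic m) * s R m k) - (∑ p ∈ (Finset.univ : Finset (Fin m)).offDiag,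
    s R m p.1 * s R m p.2) - (∑ k, C 2 * s R m k) + C (m : R)

variable {R m}

lemma four {α : Type*} [DecidableEq α] {a b c d : α} (hab : a ≠ b) (hac : a ≠ c) (had : a ≠ d)
    (hbc : b ≠ c) (hbd : b ≠ d) (hcd : c ≠ d) (i : α) :
    ((if i = a then 1 else 0) + (if i = b then 1 else 0)) +
      ((if i = c then 1 else 0) + (if i = d then 1 else 0)) ≤ 1 := by
  by_cases h1 : i = a
  · subst h1; simp [hab, hac, had]
  by_cases h2 : i = b
  · subst h2; simp [hbc, hbd, h1]
  by_cases h3 : i = c
  · subst h3; simp [h1, h2, hcd]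
  simp only [if_neg h1, if_neg h2, if_neg h3]
  split_ifs <;> simp

lemma mem_restrict_of_degreeOf {n : ℕ} {P : MvPolynomial (Fin n) R}
    (h : ∀ i, P.degreeOf i ≤ 1) : P ∈ restrictDegree (Fin n) R 1 := by
  classical
  rw [mem_restrictDegree_iff_sup]
  intro i
  have := h i
  rwa [degreeOf_def] at this

lemma degreeOf_of_mem_restrict {n : ℕ} {P : MvPolynomial (Fin n) R}
    (h : P ∈ restrictDegree (Fin n) R 1) : ∀ i, P.degreeOf i ≤ 1 := by
  classical
  rw [mem_restrictDegree_iff_sup] at h
  intro i
  rw [degreeOf_def]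
  exact h i

lemma PP_mem : PP R m ∈ restrictDegree (Fin (2 * m + 1)) R 1 := by
  unfold PP
  refine Submodule.sub_mem _ ?_ (Submodule.sum_mem _ fun k _ => ?_)
  · apply mem_restrict_of_degreeOf
    intro i
    rw [degreeOf_X]
    split_ifs <;> simp
  · apply mem_restrict_of_degreeOf
    intro i
    refine (degreeOf_mul_le _ _ _).trans ?_
    rw [degreeOf_X, degreeOf_X]
    have h := ia_ne_ib m k k
    split_ifs with h1 h2
    · exact absurd (h1.symm.trans h2) h
    all_goals simp

lemma QQ_mem : QQ R m ∈ restrictDegree (Fin (2 * m + 1)) R 1 := by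
  unfold QQ
  refine Submodule.add_mem _ (Submodule.sub_mem _ (Submodule.sub_mem _
    (Submodule.sum_mem _ fun k _ => ?_) (Submodule.sum_mem _ fun p hp => ?_))
    (Submodule.sum_mem _ fun k _ => ?_)) ?_
  · apply mem_restrict_of_degreeOf
    intro i
    refine (degreeOf_mul_le _ _ _).trans ?_
    refine (Nat.add_le_add_left (degreeOf_mul_le _ _ _) _).trans ?_
    rw [degreeOf_X, degreeOf_X, degreeOf_X]
    have h := ia_ne_ib m k k
    have h' := ia_ne_ic m k
    have h'' := ib_ne_ic m k
    split_ifs with h1 h2 h3 h4 h5 h6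
    all_goals omega
  · rw [Finset.mem_offDiag] at hp
    have hne := hp.2.2
    apply mem_restrict_of_degreeOf
    intro i
    refine (degreeOf_mul_le _ _ _).trans ?_
    refine (Nat.add_le_add (degreeOf_mul_le _ _ _) (degreeOf_mul_le _ _ _)).trans ?_
    rw [degreeOf_X, degreeOf_X, degreeOf_X, degreeOf_X]
    have e1 := ia_ne_ib m p.1 p.1
    have e2 := ia_ne_ib m p.2 p.2
    have e3 := ia_ne_ib m p.1 p.2
    have e4 := ia_ne_ib m p.2 p.1
    have e5 := ia_ne_ia m hne
    have e6 := ib_ne_ib m hne
    exact four e1 e5 e3 e4.symm e6 e2 i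
  · apply mem_restrict_of_degreeOf
    intro i
    refine (degreeOf_mul_le _ _ _).trans ?_
    refine (Nat.add_le_add_left (degreeOf_mul_le _ _ _) _).trans ?_
    rw [degreeOf_X, degreeOf_X, degreeOf_C]
    have h := ia_ne_ib m k k
    split_ifs with h1 h2
    · exact absurd (h1.symm.trans h2) h
    all_goals simp
  · apply mem_restrict_of_degreeOf
    intro i
    rw [degreeOf_C]
    simp

lemma PP_deg : (PP R m).totalDegree ≤ 4 := by
  rw [← mem_restrictTotalDegree]
  unfold PP
  refine Submodule.sub_mem _ ?_ (Submodule.sum_mem _ fun k _ => ?_)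
  · rw [mem_restrictTotalDegree, totalDegree_X]; norm_num
  · rw [mem_restrictTotalDegree]
    refine (totalDegree_mul _ _).trans ?_
    rw [totalDegree_X, totalDegree_X]; norm_num

lemma s_deg (k : Fin m) : (s R m k).totalDegree ≤ 2 := by
  refine (totalDegree_mul _ _).trans ?_
  rw [totalDegree_X, totalDegree_X]

lemma QQ_deg : (QQ R m).totalDegree ≤ 4 := by
  rw [← mem_restrictTotalDegree]
  unfold QQ
  refine Submodule.add_mem _ (Submodule.sub_mem _ (Submodule.sub_mem _
    (Submodule.sum_mem _ fun k _ => ?_) (Submodule.sum_mem _ fun p hp => ?_))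
    (Submodule.sum_mem _ fun k _ => ?_)) ?_
  · rw [mem_restrictTotalDegree]
    refine (totalDegree_mul _ _).trans ?_
    have := s_deg (R := R) k
    rw [totalDegree_X]; omega
  · rw [mem_restrictTotalDegree]
    refine (totalDegree_mul _ _).trans ?_
    have := s_deg (R := R) p.1
    have := s_deg (R := R) p.2
    omega
  · rw [mem_restrictTotalDegree]
    refine (totalDegree_mul _ _).trans ?_
    have := s_deg (R := R) k
    rw [totalDegree_C]; omega
  · rw [mem_restrictTotalDegree, totalDegree_C]; norm_num

end Construction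

section Zeros

variable {R : Type*} [Field R] {m : ℕ}

lemma sum_offDiag (t : Fin m → R) :
    ∑ p ∈ (Finset.univ : Finset (Fin m)).offDiag, t p.1 * t p.2 =
      (∑ k, t k) ^ 2 - ∑ k, t k ^ 2 := by
  have h1 : (∑ k, t k) ^ 2 = ∑ p ∈ (Finset.univ : Finset (Fin m)) ×ˢ Finset.univ,
      t p.1 * t p.2 := by
    rw [sq, Finset.sum_mul_sum, Finset.sum_product]
  have h2 := Finset.diag_union_offDiag (Finset.univ : Finset (Fin m))
  rw [h1, ← h2, Finset.sum_union (Finset.disjoint_diag_offDiag _)]
  have h3 : ∑ p ∈ (Finset.univ : Finset (Fin m)).diag, t p.1 * t p.2 = ∑ k, t k ^ 2 := by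
    rw [Finset.sum_diag]
    exact Finset.sum_congr rfl fun k _ => (sq _).symm
  rw [h3]; ring

lemma mem_zeroSet_iff [LinearOrder R] [IsStrictOrderedRing R] (x : Fin (2 * m + 1) → R) :
    x ∈ zeroSet (PP R m) (QQ R m) ↔
      (∀ k, x (ia m k) * x (ib m k) = 1) ∧ x (ic m) = m := by
  have hP : eval x (PP R m) = x (ic m) - ∑ k, x (ia m k) * x (ib m k) := by
    simp [PP, s]
  have hQ : eval x (QQ R m) = x (ic m) * (∑ k, x (ia m k) * x (ib m k)) -
      ((∑ k, x (ia m k) * x (ib m k)) ^ 2 - ∑ k, (x (ia m k) * x (ib m k)) ^ 2) -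
      2 * (∑ k, x (ia m k) * x (ib m k)) + m := by
    rw [← sum_offDiag (fun k => x (ia m k) * x (ib m k))]
    simp [QQ, s, Finset.mul_sum]
  have key : eval x (PP R m) = 0 → eval x (QQ R m) =
      ∑ k : Fin m, (x (ia m k) * x (ib m k) - 1) ^ 2 := by
    intro h0
    rw [hP] at h0
    have hz : x (ic m) = ∑ k, x (ia m k) * x (ib m k) := by linear_combination h0
    have e : ∑ k : Fin m, (x (ia m k) * x (ib m k) - 1) ^ 2 =
        ∑ k, (x (ia m k) * x (ib m k)) ^ 2 - 2 * (∑ k, x (ia m k) * x (ib m k)) + m := by
      have : ∀ k : Fin m, (x (ia m k) * x (ib m k) - 1) ^ 2 =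
          (x (ia m k) * x (ib m k)) ^ 2 - 2 * (x (ia m k) * x (ib m k)) + 1 := fun k => by ring
      simp only [this]
      rw [Finset.sum_add_distrib, Finset.sum_sub_distrib, ← Finset.mul_sum]
      simp
    rw [hQ, e, hz]
    ring
  constructor
  · rintro ⟨h0, h1⟩
    rw [key h0] at h1
    have h2 : ∀ k : Fin m, x (ia m k) * x (ib m k) = 1 := by
      intro k
      have := (Finset.sum_eq_zero_iff_of_nonneg (fun k _ => sq_nonneg _)).1 h1 k
        (Finset.mem_univ k)
      have := pow_eq_zero_iff (two_ne_zero) |>.1 this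
      linear_combination this
    refine ⟨h2, ?_⟩
    rw [hP] at h0
    simp only [h2] at h0
    simp at h0
    linear_combination h0
  · rintro ⟨h2, hz⟩
    have h0 : eval x (PP R m) = 0 := by
      rw [hP]
      simp [h2, hz]
    refine ⟨h0, ?_⟩
    rw [key h0]
    simp [h2]

/-- The sample point of the sign pattern `e`. -/
def pt (R : Type*) [Field R] (m : ℕ) (e : Fin m → Bool) : Fin (2 * m + 1) → R := fun i =>
  if h : i.1 = 2 * m then (m : R)
  else if e ⟨i.1 / 2, by have := i.2; omega⟩ then 1 else -1

lemma pt_ia (e : Fin m → Bool) (k : Fin m) :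
    pt R m e (ia m k) = if e k then 1 else -1 := by
  have hk := k.2
  have h1 : ¬ (2 * k.1 = 2 * m) := by omega
  have h2 : 2 * k.1 / 2 = k.1 := by omega
  simp [pt, ia, h1, h2]

lemma pt_ib (e : Fin m → Bool) (k : Fin m) :
    pt R m e (ib m k) = if e k then 1 else -1 := by
  have hk := k.2
  have h1 : ¬ (2 * k.1 + 1 = 2 * m) := by omega
  have h2 : (2 * k.1 + 1) / 2 = k.1 := by omega
  simp [pt, ib, h1, h2]

lemma pt_mem [LinearOrder R] [IsStrictOrderedRing R] (e : Fin m → Bool) : pt R m e ∈ zeroSet (PP R m) (QQ R m) := by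
  rw [mem_zeroSet_iff]
  constructor
  · intro k
    rw [pt_ia, pt_ib]
    split_ifs <;> norm_num
  · simp [pt, ic]

end Zeros

/-- **Two multi-affine polynomials can have unboundedly many components.**  For every real closed
field `R`, every `d ≥ 4` and every `m` there are two multi-affine polynomials `P`, `Q` of degree at
most `d` in `2 m + 1` variables whose common zero set has at least `2 ^ m` semi-algebraically
connected components. -/
theorem result (R : Type*) [Field R] [LinearOrder R] [IsStrictOrderedRing R] [IsRealClosed R]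
    [TopologicalSpace R] [OrderTopology R] (d : ℕ) (hd : 4 ≤ d) (m : ℕ) :
    ∃ P Q : MvPolynomial (Fin (2 * m + 1)) R,
      (∀ i, P.degreeOf i ≤ 1) ∧ (∀ i, Q.degreeOf i ≤ 1) ∧
      P.totalDegree ≤ d ∧ Q.totalDegree ≤ d ∧
      (2 : ℕ∞) ^ m ≤ b0 (zeroSet P Q) := by
  refine ⟨PP R m, QQ R m, degreeOf_of_mem_restrict PP_mem, degreeOf_of_mem_restrict QQ_mem,
    PP_deg.trans hd, QQ_deg.trans hd, ?_⟩
  set V := zeroSet (PP R m) (QQ R m) with hV
  -- the sign sets
  have hsa : ∀ k : Fin m, IsSemialgebraic {x : Fin (2 * m + 1) → R | 0 < x (ia m k)} := by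
    intro k
    have := IsSemialgebraic.basic (R := R) (X (ia m k) : MvPolynomial (Fin (2 * m + 1)) R)
    simpa using this
  have hcl : ∀ k : Fin m, IsClopen ((Subtype.val : V → (Fin (2 * m + 1) → R)) ⁻¹'
      {x : Fin (2 * m + 1) → R | 0 < x (ia m k)}) := by
    intro k
    constructor
    · rw [← isOpen_compl_iff]
      have : ((Subtype.val : V → (Fin (2 * m + 1) → R)) ⁻¹'
          {x : Fin (2 * m + 1) → R | 0 < x (ia m k)})ᶜ =
          (Subtype.val : V → (Fin (2 * m + 1) → R)) ⁻¹'
            {x : Fin (2 * m + 1) → R | x (ia m k) < 0} := by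
        ext ⟨x, hx⟩
        simp only [Set.mem_compl_iff, Set.mem_preimage, Set.mem_ofPred_eq, not_lt]
        constructor
        · intro h
          refine lt_of_le_of_ne h ?_
          intro h0
          have := ((mem_zeroSet_iff x).1 hx).1 k
          rw [h0, zero_mul] at this
          exact zero_ne_one this
        · exact le_of_lt
      rw [this]
      exact (isOpen_lt (continuous_apply _) continuous_const).preimage continuous_subtype_val
    · exact (isOpen_lt continuous_const (continuous_apply _)).preimage continuous_subtype_val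
  -- the map from sign patterns to components is injective
  have hinj : Function.Injective (fun e : Fin m → Bool => component V (pt R m e)) := by
    intro e e' hee
    simp only at hee
    have hmem : pt R m e' ∈ component V (pt R m e) := by
      rw [hee]
      exact ⟨pt_mem e', fun A _ _ => Iff.rfl⟩
    funext k
    have := hmem.2 _ (hsa k) (hcl k)
    simp only [Set.mem_ofPred_eq, pt_ia] at this
    cases h1 : e k <;> cases h2 : e' k <;> simp [h1, h2] at this ⊢
    all_goals exact absurd this (by norm_num)
  have hrange : Set.range (fun e : Fin m → Bool => component V (pt R m e)) ⊆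
      {C : Set (Fin (2 * m + 1) → R) | ∃ x ∈ V, C = component V x} := by
    rintro _ ⟨e, rfl⟩
    exact ⟨pt R m e, pt_mem e, rfl⟩
  have h1 := Set.encard_le_encard hrange
  refine le_trans (le_of_eq ?_) h1
  rw [← Set.image_univ, hinj.encard_image, Set.encard_univ, ENat.card_eq_coe_fintype_card]
  simp

end Pool.Agent.Results.MP_12b847_ag.TwoMultiAffine
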